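import Pool.Agent.Helper15.T8.RGB

set_option autoImplicit false

/-!
MP_2f9829_co, T8: module MAIN8 (almost all graphs of maximum degree at most `D`).
-/

open Finset Filter Topology

namespace Pool.Agent.Helper15.T8

theorem adj_from {n : ℕ} (E : Finset (Sym2 (Fin n))) (u v : Fin n) :
    (SimpleGraph.fromEdgeSet (E : Set (Sym2 (Fin n)))).Adj u v ↔ s(u, v) ∈ E ∧ u ≠ v := by
  rw [SimpleGraph.fromEdgeSet_adj, mem_coe]

/-- Choosability passes to subsets. -/
theorem CE_mono (hMon : ST_MON) {n D : ℕ} {E E' : Finset (Sym2 (Fin n))} (h : E ⊆ E')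
    (hC : CE n D E') : CE n D E := by
  refine hMon (Fin n) (Fin n) D _ _ id Function.injective_id (fun u v huv => ?_) hC
  rw [adj_from] at huv
  exact (adj_from E' u v).2 ⟨h huv.1, huv.2⟩

/-- Choosability of the graph with one more isolated vertex. -/
theorem CE_emb (hMon : ST_MON) {n D : ℕ} {E : Finset (Sym2 (Fin n))}
    (hC : CE (n + 1) D (E.image (Sym2.map Fin.castSucc))) : CE n D E := by
  refine hMon (Fin n) (Fin (n + 1)) D _ _ Fin.castSucc (Fin.castSucc_injective n)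
    (fun u v huv => ?_) hC
  rw [adj_from] at huv
  refine (adj_from _ _ _).2 ⟨?_, fun h => huv.2 (Fin.castSucc_injective n h)⟩
  exact mem_image.2 ⟨s(u, v), huv.1, by simp⟩

open Classical in
/-- Bad graphs are rare. -/
theorem bad_rare (hRGB : ST_RGB) (hASM : ST_ASM) (hEMB : ST_EMB) (hMon : ST_MON)
    (hM : T6.ST_MAIN6) (D : ℕ) (hD : 3 ≤ D) (η : ℝ) (hη : 0 < η) : ∀ᶠ n : ℕ in atTop,
    (((GW n D ∅).filter (fun E => ¬ CE n D E)).card : ℝ) ≤ η * ((GW n D ∅).card : ℝ) := by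
  obtain ⟨ε, hε, n₀, h⟩ := hASM D η (by omega) hη
  have h2 := hRGB D hD hM ε hε
  obtain ⟨N₀, hN₀⟩ := eventually_atTop.1 h2
  have key : ∀ (N : ℕ) (W : Finset (Fin (2 * N))), N₀ ≤ N → n₀ ≤ 2 * N → W.card ≤ 1 →
      (((GW (2 * N) D W).filter (fun E => ¬ CE (2 * N) D E)).card : ℝ) ≤
        η * ((GW (2 * N) D W).card : ℝ) := by
    intro N W h3 h4 h5
    obtain ⟨h6, h7⟩ := hN₀ N h3
    refine h (2 * N) W (fun E => ¬ CE (2 * N) D E) h4 (even_two_mul N) h5
      (fun E E' hE hB hC => hB (CE_mono hMon hE hC)) h6 ?_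
    have h8 : Set.ncard {E : Finset (Sym2 (Fin (2 * N))) | E ∈ RG (2 * N) D ∧
      ¬ T6.ChD D (SimpleGraph.fromEdgeSet (E : Set (Sym2 (Fin (2 * N)))))} =
      ((RG (2 * N) D).filter (fun E => ¬ CE (2 * N) D E)).card := ncard_filter _ _
    rw [h8] at h7
    exact h7
  filter_upwards [eventually_ge_atTop (2 * N₀ + n₀ + 1)] with n hn
  rcases Nat.even_or_odd' n with ⟨N, hN | hN⟩
  · subst hN
    exact key N ∅ (by omega) (by omega) (by simp)
  · subst hN
    obtain ⟨h3, h4⟩ := hEMB (2 * N + 1) D (fun E => ¬ CE (2 * N + 1) D E)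
      (fun E => ¬ CE (2 * N + 1 + 1) D E) (fun E hB hC => hB (CE_emb hMon hC))
    have h5 := key (N + 1) {Fin.last (2 * N + 1)} (by omega) (by omega) (by simp)
    rw [h3]
    refine le_trans ?_ h5
    exact_mod_cast h4

open Classical in
/-- Graphs without a vertex of degree `D` are rare. -/
theorem low_rare (hTAIL : ST_TAIL) (hBAS : ST_BAS) (D : ℕ) (hD : 1 ≤ D) (η : ℝ) (hη : 0 < η) :
    ∀ᶠ n : ℕ in atTop, (((GW n D ∅).filter (fun E => ∀ v, dg E v ≠ D)).card : ℝ) ≤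
      η * ((GW n D ∅).card : ℝ) := by
  obtain ⟨C, n₀, h⟩ := hTAIL D η 0 hD hη
  have h1 : ∀ᶠ n : ℕ in atTop, C < (n : ℝ) ^ (1 / 2 : ℝ) :=
    ((tendsto_rpow_atTop (by norm_num)).comp tendsto_natCast_atTop_atTop).eventually_gt_atTop C
  filter_upwards [h1, eventually_ge_atTop n₀, eventually_ge_atTop 1] with n h1 h2 h3
  refine le_trans ?_ (h n ∅ h2 (by simp))
  have h4 : (GW n D ∅).filter (fun E => ∀ v, dg E v ≠ D) ⊆ (GW n D ∅).filter
      (fun E => FJ n D ∅ E.card ≤ 0 ∨ C * Real.sqrt n < (FJ n D ∅ E.card : ℝ)) := by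
    intro E hE
    rw [mem_filter] at hE ⊢
    refine ⟨hE.1, ?_⟩
    have h5 := (hBAS n D ∅ E.card E (mem_filter.2 ⟨hE.1, rfl⟩)).2.1
    have h6 : n ≤ FJ n D ∅ E.card := by
      rw [← h5]
      have h7 : ∑ v ∈ (∅ : Finset (Fin n))ᶜ, 1 ≤ ∑ v ∈ (∅ : Finset (Fin n))ᶜ, (D - dg E v) := by
        refine sum_le_sum fun v _ => ?_
        have h8 := (mem_GW.1 hE.1).2.1 v
        have h9 := hE.2 v
        omega
      simpa using h7
    refine Or.inr ?_
    have hs : (0 : ℝ) < Real.sqrt n := Real.sqrt_pos.2 (by exact_mod_cast h3)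
    have hsq : Real.sqrt n * Real.sqrt n = n := Real.mul_self_sqrt (by positivity)
    have h1' : C < Real.sqrt n := by rw [Real.sqrt_eq_rpow]; exact h1
    have h6' : (n : ℝ) ≤ (FJ n D ∅ E.card : ℝ) := by exact_mod_cast h6
    calc C * Real.sqrt n < Real.sqrt n * Real.sqrt n := mul_lt_mul_of_pos_right h1' hs
      _ = n := hsq
      _ ≤ _ := h6'
  exact_mod_cast card_le_card h4

open Classical in
/-- MAIN8. -/
theorem st_MAIN8 (hWRP : ST_WRP) (hRGB : ST_RGB) (hBAS : ST_BAS) (hASM : ST_ASM)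
    (hEMB : ST_EMB) (hCNV : ST_CNV) (hMon : ST_MON) (hTAIL : ST_TAIL) : ST_MAIN8 := by
  intro hM D hD
  have hB : ∀ n : ℕ, Set.ncard {G : SimpleGraph (Fin n) |
      ∀ v, Set.ncard (G.neighborSet v) ≤ D} = (GW n D ∅).card := by
    intro n
    have h := hCNV n (fun f => ∀ v, f v ≤ D) (fun _ => True)
    have e1 : {G : SimpleGraph (Fin n) | ∀ v, Set.ncard (G.neighborSet v) ≤ D} =
        {G : SimpleGraph (Fin n) | (∀ v, Set.ncard (G.neighborSet v) ≤ D) ∧ True} := by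
      ext G
      simp only [Set.mem_ofPred_eq, and_true]
    rw [e1, h, ← Set.ncard_coe_finset]
    congr 1
    ext E
    simp [mem_GW]
  have hA : ∀ n : ℕ, ((GW n D ∅).filter (fun E => (∃ v, dg E v = D) ∧ CE n D E)).card ≤
      Set.ncard {G : SimpleGraph (Fin n) | (∀ v, Set.ncard (G.neighborSet v) ≤ D) ∧
        ∀ k : ℕ, (G.lineGraph.Colorable k ↔ D ≤ k) ∧
          ((∀ L : G.edgeSet → Finset ℕ, (∀ e, k ≤ (L e).card) →
            ∃ f : G.edgeSet → ℕ, (∀ e, f e ∈ L e) ∧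
              ∀ e e', G.lineGraph.Adj e e' → f e ≠ f e') ↔ D ≤ k)} := by
    intro n
    have h := hCNV n (fun f => (∀ v, f v ≤ D) ∧ ∃ v, f v = D) (fun G => T6.ChD D G)
    have e1 : ((GW n D ∅).filter (fun E => (∃ v, dg E v = D) ∧ CE n D E)).card =
        Set.ncard {G : SimpleGraph (Fin n) | ((∀ v, Set.ncard (G.neighborSet v) ≤ D) ∧
          ∃ v, Set.ncard (G.neighborSet v) = D) ∧ T6.ChD D G} := by
      rw [h, ← ncard_filter]
      congr 1
      ext E
      rw [Set.mem_ofPred_eq, Set.mem_ofPred_eq, mem_GW]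
      constructor
      · rintro ⟨⟨h1, h2, -⟩, h3, h4⟩
        exact ⟨h1, ⟨h2, h3⟩, h4⟩
      · rintro ⟨h1, ⟨h2, h3⟩, h4⟩
        exact ⟨⟨h1, h2, by simp⟩, h3, h4⟩
    rw [e1]
    refine Set.ncard_le_ncard ?_ (Set.toFinite _)
    rintro G ⟨⟨h1, v, h2⟩, h3⟩
    exact ⟨h1, hWRP (Fin n) D G v h2 h3⟩
  have hAB : ∀ n : ℕ, Set.ncard {G : SimpleGraph (Fin n) |
      (∀ v, Set.ncard (G.neighborSet v) ≤ D) ∧
        ∀ k : ℕ, (G.lineGraph.Colorable k ↔ D ≤ k) ∧
          ((∀ L : G.edgeSet → Finset ℕ, (∀ e, k ≤ (L e).card) →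
            ∃ f : G.edgeSet → ℕ, (∀ e, f e ∈ L e) ∧
              ∀ e e', G.lineGraph.Adj e e' → f e ≠ f e') ↔ D ≤ k)} ≤
      Set.ncard {G : SimpleGraph (Fin n) | ∀ v, Set.ncard (G.neighborSet v) ≤ D} :=
    fun n => Set.ncard_le_ncard (fun G hG => hG.1) (Set.toFinite _)
  have hpos : ∀ n : ℕ, 0 < (GW n D ∅).card := by
    intro n
    refine card_pos.2 ⟨∅, mem_GW.2 ⟨by simp, fun v => ?_, by simp⟩⟩
    simp [dg]
  rw [tendsto_order]
  constructor
  · intro a ha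
    have hη : 0 < (1 - a) / 3 := by linarith
    filter_upwards [bad_rare hRGB hASM hEMB hMon hM D hD ((1 - a) / 3) hη,
      low_rare hTAIL hBAS D (by omega) ((1 - a) / 3) hη] with n h1 h2
    have h3 : (GW n D ∅).card ≤
        ((GW n D ∅).filter (fun E => (∃ v, dg E v = D) ∧ CE n D E)).card +
        ((GW n D ∅).filter (fun E => ¬ CE n D E)).card +
        ((GW n D ∅).filter (fun E => ∀ v, dg E v ≠ D)).card := by
      have hsub : GW n D ∅ ⊆ ((GW n D ∅).filter (fun E => (∃ v, dg E v = D) ∧ CE n D E) ∪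
          (GW n D ∅).filter (fun E => ¬ CE n D E)) ∪
          (GW n D ∅).filter (fun E => ∀ v, dg E v ≠ D) := by
        intro E hE
        simp only [mem_union, mem_filter]
        by_cases h4 : CE n D E
        · by_cases h5 : ∃ v, dg E v = D
          · exact Or.inl (Or.inl ⟨hE, h5, h4⟩)
          · push Not at h5
            exact Or.inr ⟨hE, h5⟩
        · exact Or.inl (Or.inr ⟨hE, h4⟩)
      refine (card_le_card hsub).trans ((card_union_le _ _).trans ?_)
      exact Nat.add_le_add_right (card_union_le _ _) _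
    have h4 := hA n
    have hp : (0 : ℝ) < ((GW n D ∅).card : ℝ) := by exact_mod_cast hpos n
    rw [hB n, lt_div_iff₀ hp]
    have h3' : ((GW n D ∅).card : ℝ) ≤
        (((GW n D ∅).filter (fun E => (∃ v, dg E v = D) ∧ CE n D E)).card : ℝ) +
        (((GW n D ∅).filter (fun E => ¬ CE n D E)).card : ℝ) +
        (((GW n D ∅).filter (fun E => ∀ v, dg E v ≠ D)).card : ℝ) := by exact_mod_cast h3
    have h4' : (((GW n D ∅).filter (fun E => (∃ v, dg E v = D) ∧ CE n D E)).card : ℝ) ≤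
      (Set.ncard {G : SimpleGraph (Fin n) | (∀ v, Set.ncard (G.neighborSet v) ≤ D) ∧
        ∀ k : ℕ, (G.lineGraph.Colorable k ↔ D ≤ k) ∧
          ((∀ L : G.edgeSet → Finset ℕ, (∀ e, k ≤ (L e).card) →
            ∃ f : G.edgeSet → ℕ, (∀ e, f e ∈ L e) ∧
              ∀ e e', G.lineGraph.Adj e e' → f e ≠ f e') ↔ D ≤ k)} : ℝ) := by
      exact_mod_cast h4
    nlinarith
  · intro a ha
    refine Eventually.of_forall fun n => ?_
    have hp : (0 : ℝ) < (Set.ncard {G : SimpleGraph (Fin n) |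
        ∀ v, Set.ncard (G.neighborSet v) ≤ D} : ℝ) := by
      rw [hB n]; exact_mod_cast hpos n
    refine lt_of_le_of_lt ((div_le_one hp).2 ?_) ha
    exact_mod_cast hAB n

end Pool.Agent.Helper15.T8
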