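import Pool.Agent.Helper15.T8.Stmts

set_option autoImplicit false

/-!
MP_2f9829_co, T8: module RGB (bad regular graphs are rare).
-/

open Finset Filter Topology

namespace Pool.Agent.Helper15.T8

theorem mem_RG {n D : ℕ} {E : Finset (Sym2 (Fin n))} :
    E ∈ RG n D ↔ (∀ e ∈ E, ¬ e.IsDiag) ∧ ∀ v, dg E v = D := by
  simp [RG]

theorem mem_GW {n D : ℕ} {W : Finset (Fin n)} {E : Finset (Sym2 (Fin n))} :
    E ∈ GW n D W ↔ (∀ e ∈ E, ¬ e.IsDiag) ∧ (∀ v, dg E v ≤ D) ∧ ∀ v ∈ W, dg E v = 0 := by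
  simp [GW]

theorem reg_three {n D : ℕ} (G : SimpleGraph (Fin n)) :
    T6.Reg D 3 G ↔ ∀ v, Set.ncard (G.neighborSet v) = D :=
  ⟨fun h => h.1, fun h => ⟨h, fun _ _ hp => hp.three_le_length⟩⟩

/-- Choosability of a set of edges. -/
def CE (n D : ℕ) (E : Finset (Sym2 (Fin n))) : Prop :=
  T6.ChD D (SimpleGraph.fromEdgeSet (E : Set (Sym2 (Fin n))))

/-- The number of sets in a filter as `Set.ncard`. -/
theorem ncard_filter {α : Type} (s : Finset α) (B : α → Prop) [DecidablePred B] :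
    Set.ncard {E | E ∈ s ∧ B E} = (s.filter B).card := by
  rw [← Set.ncard_coe_finset]
  congr 1
  ext E
  simp

open Classical in
/-- RGB. -/
theorem st_RGB (hC : ST_CNV) : ST_RGB := by
  intro D hD hM ε hε
  have h1 := hM D 3 hD le_rfl
  have hm : 0 < min ε (1 / 2) := lt_min hε (by norm_num)
  have h2 := h1.eventually (lt_mem_nhds (show (1 : ℝ) - min ε (1 / 2) < 1 by linarith))
  filter_upwards [h2] with N hN
  have hb : Set.ncard {G : SimpleGraph (Fin (2 * N)) | T6.Reg D 3 G} = (RG (2 * N) D).card := by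
    have h := hC (2 * N) (fun f => ∀ v, f v = D) (fun _ => True)
    have e1 : {G : SimpleGraph (Fin (2 * N)) | T6.Reg D 3 G} =
        {G : SimpleGraph (Fin (2 * N)) | (∀ v, Set.ncard (G.neighborSet v) = D) ∧ True} := by
      ext G
      simp only [Set.mem_ofPred_eq, reg_three, and_true]
    rw [e1, h, ← Set.ncard_coe_finset]
    congr 1
    ext E
    simp only [Set.mem_ofPred_eq, and_true, mem_coe, mem_RG]
  have ha : Set.ncard {G : SimpleGraph (Fin (2 * N)) | T6.Reg D 3 G ∧ T6.ChD D G} =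
      ((RG (2 * N) D).filter (CE (2 * N) D)).card := by
    have h := hC (2 * N) (fun f => ∀ v, f v = D) (fun G => T6.ChD D G)
    have e1 : {G : SimpleGraph (Fin (2 * N)) | T6.Reg D 3 G ∧ T6.ChD D G} =
        {G : SimpleGraph (Fin (2 * N)) | (∀ v, Set.ncard (G.neighborSet v) = D) ∧
          T6.ChD D G} := by
      ext G
      simp only [Set.mem_ofPred_eq, reg_three]
    rw [e1, h, ← Set.ncard_coe_finset]
    congr 1
    ext E
    simp only [Set.mem_ofPred_eq, mem_coe, mem_filter, mem_RG, and_assoc, CE]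
  have hc : Set.ncard {E : Finset (Sym2 (Fin (2 * N))) | E ∈ RG (2 * N) D ∧
      ¬ T6.ChD D (SimpleGraph.fromEdgeSet (E : Set (Sym2 (Fin (2 * N)))))} =
      ((RG (2 * N) D).filter (fun E => ¬ CE (2 * N) D E)).card := ncard_filter _ _
  rw [hc]
  rw [ha, hb] at hN
  have hsum := Finset.card_filter_add_card_filter_not (s := RG (2 * N) D) (CE (2 * N) D)
  have hsum' : (((RG (2 * N) D).filter (CE (2 * N) D)).card : ℝ) +
      (((RG (2 * N) D).filter (fun E => ¬ CE (2 * N) D E)).card : ℝ) =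
      ((RG (2 * N) D).card : ℝ) := by
    exact_mod_cast hsum
  have hpos : 0 < (RG (2 * N) D).card := by
    rcases Nat.eq_zero_or_pos (RG (2 * N) D).card with h0 | h0
    · exfalso
      rw [h0, Nat.cast_zero, div_zero] at hN
      have := min_le_right ε (1 / 2 : ℝ)
      linarith
    · exact h0
  refine ⟨hpos, ?_⟩
  have hpos' : (0 : ℝ) < ((RG (2 * N) D).card : ℝ) := by exact_mod_cast hpos
  rw [lt_div_iff₀ hpos'] at hN
  have := min_le_left ε (1 / 2 : ℝ)
  nlinarith

end Pool.Agent.Helper15.T8
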