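import Pool.Agent.Helper15.T8.Stmts
import Pool.Agent.Helper15.T6.WRAP

set_option autoImplicit false

/-!
MP_2f9829_co, T8: module WRP (the list edge-colouring conjecture for one graph).
-/

open Finset MeasureTheory Filter Topology

namespace Pool.Agent.Helper15.T8

/-- A proper colouring of the edges needs at least as many colours as the degree of a vertex. -/
theorem deg_le {V : Type} [Fintype V] {d : ℕ} {G : SimpleGraph V} {v : V}
    (hG : Set.ncard (G.neighborSet v) = d) {k : ℕ} (f : G.edgeSet → ℕ) (hk : ∀ e, f e < k)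
    (hf : ∀ e e', G.lineGraph.Adj e e' → f e ≠ f e') : d ≤ k := by
  have h1 : Nat.card (G.neighborSet v) = d := by
    rw [Nat.card_coe_set_eq]; exact hG
  have h2 : Function.Injective
      (fun a : G.neighborSet v => (⟨f ⟨s(v, a.1), a.2⟩, hk _⟩ : Fin k)) := by
    intro a b hab
    by_contra hne
    have h3 : a.1 ≠ b.1 := fun h => hne (Subtype.ext h)
    exact hf _ _ (T6.Wrap.adj_line a.2 b.2 h3) (Fin.mk.inj hab)
  have h4 := Nat.card_le_card_of_injective _ h2
  rw [h1, Nat.card_eq_fintype_card, Fintype.card_fin] at h4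
  exact h4

/-- WRP. -/
theorem st_WRP : ST_WRP := by
  intro V _ d G v hG hC k
  have key : d ≤ k → ∀ L : G.edgeSet → Finset ℕ, (∀ e, k ≤ (L e).card) →
      ∃ f : G.edgeSet → ℕ, (∀ e, f e ∈ L e) ∧ ∀ e e', G.lineGraph.Adj e e' → f e ≠ f e' :=
    fun h L hL => hC L fun e => h.trans (hL e)
  refine ⟨⟨?_, ?_⟩, ⟨?_, key⟩⟩
  · rintro ⟨C⟩
    exact deg_le hG (fun e => (C e : ℕ)) (fun e => (C e).isLt)
      fun e e' h h' => C.valid h (Fin.ext h')
  · intro h
    obtain ⟨f, hf, hf'⟩ := key h (fun _ => range k) (fun _ => by simp)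
    refine ⟨SimpleGraph.Coloring.mk (fun e => (⟨f e, mem_range.1 (hf e)⟩ : Fin k)) ?_⟩
    intro e e' h1 h2
    exact hf' e e' h1 (Fin.mk.inj h2)
  · intro h
    obtain ⟨f, hf, hf'⟩ := h (fun _ => range k) (fun _ => by simp)
    exact deg_le hG f (fun e => mem_range.1 (hf e)) hf'

end Pool.Agent.Helper15.T8
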