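import Pool.Agent.Helper1.T8.SW1
import Pool.Agent.Helper15.T8.MAIN8
import Pool.Agent.Helper15.T8.RGB
import Pool.Agent.Helper15.T8.WRP
import Pool.Agent.Helper19.T8.TAIL
import Pool.Agent.Helper20.T8.SW2
import Pool.Agent.Helper25.T8.CNV
import Pool.Agent.Helper25.T8.MON
import Pool.Agent.Helper38.T8.TYP
import Pool.Agent.Helper53.T8.EMB
import Pool.Agent.Helper61.T8.RT1
import Pool.Agent.Helper62.T8.LOC
import Pool.Agent.Helper66.T8.BAS
import Pool.Agent.Helper66.T8.RT2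
import Pool.Agent.Helper66.T8.UPC
import Pool.Agent.Helper78.T8.ASM

set_option autoImplicit false

/-!
MP_2f9829_co: assembly of the modules.
-/

namespace Pool.Agent.Helper15.T8.All

theorem all_E_WRP : Pool.Agent.Helper15.T8.ST_WRP :=
  Pool.Agent.Helper15.T8.st_WRP

theorem all_E_CNV : Pool.Agent.Helper15.T8.ST_CNV :=
  Pool.Agent.Helper25.T8.st_CNV

theorem all_E_RGB : Pool.Agent.Helper15.T8.ST_RGB :=
  Pool.Agent.Helper15.T8.st_RGB all_E_CNV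

theorem all_E_BAS : Pool.Agent.Helper15.T8.ST_BAS :=
  Pool.Agent.Helper66.T8.st_BAS

theorem all_E_DCT : Pool.Agent.Helper15.T8.ST_DCT :=
  Pool.Agent.Helper66.T8.st_DCT

theorem all_E_UPC : Pool.Agent.Helper15.T8.ST_UPC :=
  Pool.Agent.Helper66.T8.st_UPC

theorem all_E_LOC : Pool.Agent.Helper15.T8.ST_LOC :=
  Pool.Agent.Helper62.T8.st_LOC

theorem all_E_SW1 : Pool.Agent.Helper15.T8.ST_SW1 :=
  Pool.Agent.Helper1.T8.st_SW1 all_E_BAS

theorem all_E_SW2 : Pool.Agent.Helper15.T8.ST_SW2 :=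
  Pool.Agent.Helper20.T8.st_SW2 all_E_BAS

theorem all_E_TYP : Pool.Agent.Helper15.T8.ST_TYP :=
  Pool.Agent.Helper38.T8.st_TYP all_E_SW1 all_E_SW2

theorem all_E_RT1 : Pool.Agent.Helper15.T8.ST_RT1 :=
  Pool.Agent.Helper61.T8.st_RT1 all_E_BAS

theorem all_E_RT2 : Pool.Agent.Helper15.T8.ST_RT2 :=
  Pool.Agent.Helper66.T8.st_RT2

theorem all_E_TAIL : Pool.Agent.Helper15.T8.ST_TAIL :=
  Pool.Agent.Helper19.T8.st_TAIL all_E_RT1 all_E_RT2 all_E_BAS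

theorem all_E_ASM : Pool.Agent.Helper15.T8.ST_ASM :=
  Pool.Agent.Helper78.T8.st_ASM all_E_BAS all_E_DCT all_E_UPC all_E_LOC all_E_TYP all_E_TAIL

theorem all_E_EMB : Pool.Agent.Helper15.T8.ST_EMB :=
  Pool.Agent.Helper53.T8.st_EMB

theorem all_E_MON : Pool.Agent.Helper15.T8.ST_MON :=
  Pool.Agent.Helper25.T8.st_MON

theorem all_E_MAIN8 : Pool.Agent.Helper15.T8.ST_MAIN8 :=
  Pool.Agent.Helper15.T8.st_MAIN8 all_E_WRP all_E_RGB all_E_BAS all_E_ASM all_E_EMB all_E_CNV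
    all_E_MON all_E_TAIL

end Pool.Agent.Helper15.T8.All
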