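import Mathlib

set_option autoImplicit false

/-!
MP_2f9829_co, part T8: from almost all regular graphs to almost all graphs of bounded degree. Graphs are
finite sets of edges (elements of `Sym2 (Fin n)` outside the diagonal).
-/

open Finset

namespace Pool.Agent.Helper15.T8

/-- The degree of a vertex. -/
def dg {n : ℕ} (E : Finset (Sym2 (Fin n))) (v : Fin n) : ℕ := (E.filter (fun e => v ∈ e)).card

/-- Simple graphs of maximum degree at most `D` in which the vertices of `W` are isolated. -/
def GW (n D : ℕ) (W : Finset (Fin n)) : Finset (Finset (Sym2 (Fin n))) :=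
  univ.filter (fun E => (∀ e ∈ E, ¬ e.IsDiag) ∧ (∀ v, dg E v ≤ D) ∧ ∀ v ∈ W, dg E v = 0)

/-- The graphs of `GW` with `j` edges. -/
def GJ (n D : ℕ) (W : Finset (Fin n)) (j : ℕ) : Finset (Finset (Sym2 (Fin n))) :=
  (GW n D W).filter (fun E => E.card = j)

/-- `D`-regular graphs. -/
def RG (n D : ℕ) : Finset (Finset (Sym2 (Fin n))) :=
  univ.filter (fun E => (∀ e ∈ E, ¬ e.IsDiag) ∧ ∀ v, dg E v = D)

/-- The number of `D`-regular graphs that contain `E`. -/
def cp (n D : ℕ) (E : Finset (Sym2 (Fin n))) : ℕ := ((RG n D).filter (fun E' => E ⊆ E')).card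

/-- The total deficiency of the vertices outside `W`, for graphs with `j` edges. -/
def FJ (n D : ℕ) (W : Finset (Fin n)) (j : ℕ) : ℕ := (n - W.card) * D - 2 * j

/-- The number of perfect matchings on `2 k` points. -/
def df (k : ℕ) : ℕ := ∏ i ∈ range k, (2 * i + 1)

/-- The exceptional vertices: deficiency at least two, or deficient with a deficient neighbour. -/
def TT (n D : ℕ) (E : Finset (Sym2 (Fin n))) : Finset (Fin n) :=
  univ.filter (fun v => dg E v + 2 ≤ D ∨ (dg E v < D ∧ ∃ u, u ≠ v ∧ dg E u < D ∧ s(u, v) ∈ E))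

end Pool.Agent.Helper15.T8
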