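import Pool.Agent.Helper5.T7.Wrap
import Pool.Agent.Helper15.T8.MAIN8

set_option autoImplicit false

/-!
MP_2f9829_co: the final statements for regular graphs of all orders and for graphs of bounded degree.
-/

open Finset Filter Topology

namespace Pool.Agent.Helper15.T8

open Pool.Agent.Helper15.T6 (Reg ChD ST_MAIN6 ST_POSG ST_FIBG ST_GIR1 ST_GIR2 ST_WRAP)

/-- Almost all regular graphs, of both parities of the order, with the value of the list chromatic index. -/
theorem final_reg (hM : ST_MAIN6) (hP : ST_POSG) (hF : ST_FIBG) (h1 : ST_GIR1) (h2 : ST_GIR2)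
    (hW : ST_WRAP) : ∀ d g : ℕ, 3 ≤ d → 3 ≤ g → ∀ ε : ℝ, 0 < ε → ∃ n₀ : ℕ, ∀ n : ℕ, n₀ ≤ n →
    Even (n * d) →
    0 < Set.ncard {G : SimpleGraph (Fin n) | (∀ v, Set.ncard (G.neighborSet v) = d) ∧
      ∀ (u : Fin n) (p : G.Walk u u), p.IsCycle → g ≤ p.length} ∧
    (1 - ε) * (Set.ncard {G : SimpleGraph (Fin n) | (∀ v, Set.ncard (G.neighborSet v) = d) ∧
      ∀ (u : Fin n) (p : G.Walk u u), p.IsCycle → g ≤ p.length} : ℝ) ≤
    (Set.ncard {G : SimpleGraph (Fin n) | ((∀ v, Set.ncard (G.neighborSet v) = d) ∧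
      ∀ (u : Fin n) (p : G.Walk u u), p.IsCycle → g ≤ p.length) ∧
      ∀ k : ℕ, (G.lineGraph.Colorable k ↔ (if Even n then d else d + 1) ≤ k) ∧
        ((∀ L : G.edgeSet → Finset ℕ, (∀ e, k ≤ (L e).card) →
          ∃ f : G.edgeSet → ℕ, (∀ e, f e ∈ L e) ∧ ∀ e e', G.lineGraph.Adj e e' → f e ≠ f e') ↔
            (if Even n then d else d + 1) ≤ k)} : ℝ) := by
  intro d g hd hg ε hε
  -- generic step
  have gen : ∀ (n D : ℕ), D = (if Even n then d else d + 1) →
      1 - min ε (1 / 2) < (Set.ncard {G : SimpleGraph (Fin n) | Reg d g G ∧ ChD D G} : ℝ) /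
      (Set.ncard {G : SimpleGraph (Fin n) | Reg d g G} : ℝ) →
      (∀ G : SimpleGraph (Fin n), Reg d g G → ChD D G → ∀ k : ℕ,
        (G.lineGraph.Colorable k ↔ D ≤ k) ∧
        ((∀ L : G.edgeSet → Finset ℕ, (∀ e, k ≤ (L e).card) →
          ∃ f : G.edgeSet → ℕ, (∀ e, f e ∈ L e) ∧ ∀ e e', G.lineGraph.Adj e e' → f e ≠ f e') ↔
            D ≤ k)) →
      0 < Set.ncard {G : SimpleGraph (Fin n) | (∀ v, Set.ncard (G.neighborSet v) = d) ∧
        ∀ (u : Fin n) (p : G.Walk u u), p.IsCycle → g ≤ p.length} ∧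
      (1 - ε) * (Set.ncard {G : SimpleGraph (Fin n) | (∀ v, Set.ncard (G.neighborSet v) = d) ∧
        ∀ (u : Fin n) (p : G.Walk u u), p.IsCycle → g ≤ p.length} : ℝ) ≤
      (Set.ncard {G : SimpleGraph (Fin n) | ((∀ v, Set.ncard (G.neighborSet v) = d) ∧
        ∀ (u : Fin n) (p : G.Walk u u), p.IsCycle → g ≤ p.length) ∧
        ∀ k : ℕ, (G.lineGraph.Colorable k ↔ (if Even n then d else d + 1) ≤ k) ∧
          ((∀ L : G.edgeSet → Finset ℕ, (∀ e, k ≤ (L e).card) →
            ∃ f : G.edgeSet → ℕ, (∀ e, f e ∈ L e) ∧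
              ∀ e e', G.lineGraph.Adj e e' → f e ≠ f e') ↔
              (if Even n then d else d + 1) ≤ k)} : ℝ) := by
    intro n D hD hr himp
    subst hD
    have hb0 : (0 : ℝ) ≤ (Set.ncard {G : SimpleGraph (Fin n) | Reg d g G} : ℝ) := Nat.cast_nonneg _
    have hpos : (0 : ℝ) < (Set.ncard {G : SimpleGraph (Fin n) | Reg d g G} : ℝ) := by
      rcases hb0.eq_or_lt with h0 | h0
      · rw [← h0, div_zero] at hr
        have := min_le_right ε (1 / 2)
        linarith
      · exact h0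
    rw [lt_div_iff₀ hpos] at hr
    refine ⟨by exact_mod_cast hpos, ?_⟩
    have hsub : {G : SimpleGraph (Fin n) | Reg d g G ∧ ChD (if Even n then d else d + 1) G} ⊆
        {G : SimpleGraph (Fin n) | ((∀ v, Set.ncard (G.neighborSet v) = d) ∧
        ∀ (u : Fin n) (p : G.Walk u u), p.IsCycle → g ≤ p.length) ∧
        ∀ k : ℕ, (G.lineGraph.Colorable k ↔ (if Even n then d else d + 1) ≤ k) ∧
          ((∀ L : G.edgeSet → Finset ℕ, (∀ e, k ≤ (L e).card) →
            ∃ f : G.edgeSet → ℕ, (∀ e, f e ∈ L e) ∧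
              ∀ e e', G.lineGraph.Adj e e' → f e ≠ f e') ↔
              (if Even n then d else d + 1) ≤ k)} :=
      fun G hG => ⟨hG.1, himp G hG.1 hG.2⟩
    have hle := Set.ncard_le_ncard hsub (Set.toFinite _)
    have hle' : (Set.ncard {G : SimpleGraph (Fin n) | Reg d g G ∧
        ChD (if Even n then d else d + 1) G} : ℝ) ≤ _ := Nat.cast_le.2 hle
    refine le_trans ?_ hle'
    have h3 : (1 - ε) * (Set.ncard {G : SimpleGraph (Fin n) | Reg d g G} : ℝ) ≤
        (1 - min ε (1 / 2)) * (Set.ncard {G : SimpleGraph (Fin n) | Reg d g G} : ℝ) := by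
      have := min_le_left ε (1 / 2)
      exact mul_le_mul_of_nonneg_right (by linarith) hb0
    exact h3.trans hr.le
  have hm : 0 < min ε (1 / 2) := lt_min hε (by norm_num)
  -- even orders
  obtain ⟨a, ha⟩ := eventually_atTop.1
    ((hM d g hd hg).eventually (lt_mem_nhds (show (1 : ℝ) - min ε (1 / 2) < 1 by linarith)))
  -- odd orders
  have ho : ∀ᶠ N : ℕ in atTop, Even d → 1 - min ε (1 / 2) <
      (Set.ncard {G : SimpleGraph (Fin (2 * N + 1)) | Reg d g G ∧ ChD (d + 1) G} : ℝ) /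
      (Set.ncard {G : SimpleGraph (Fin (2 * N + 1)) | Reg d g G} : ℝ) := by
    by_cases hde : Even d
    · obtain ⟨h, hh⟩ := hde
      have hd2 : d = 2 * h := by omega
      have h3 := (Pool.Agent.Helper5.T7.odd_main hM hP hF h1 h2 h g (by omega) hg).eventually
        (lt_mem_nhds (show (1 : ℝ) - min ε (1 / 2) < 1 by linarith))
      rw [← hd2] at h3
      filter_upwards [h3] with N hN _
      exact hN
    · exact Eventually.of_forall fun N h' => absurd h' hde
  obtain ⟨b, hb⟩ := eventually_atTop.1 ho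
  refine ⟨2 * a + 2 * b + 1, fun n hn hnd => ?_⟩
  rcases Nat.even_or_odd' n with ⟨N, hN | hN⟩
  · subst hN
    have hne : Nonempty (Fin (2 * N)) := ⟨⟨0, by omega⟩⟩
    exact gen (2 * N) d (by rw [if_pos (even_two_mul N)]) (ha N (by omega))
      (fun G hG hC => hW (Fin (2 * N)) d g G hG hC)
  · subst hN
    have hno : ¬ Even (2 * N + 1) := by simp [parity_simps]
    have hde : Even d := by
      rcases Nat.even_mul.1 hnd with h' | h'
      · exact absurd h' hno
      · exact h'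
    exact gen (2 * N + 1) (d + 1) (by rw [if_neg hno]) (hb N (by omega) hde)
      (fun G hG hC k => Pool.Agent.Helper5.T7.wrap_odd (Fin (2 * N + 1)) d G (by omega)
        (by rw [Fintype.card_fin]; exact ⟨N, rfl⟩) hG.1 hC k)

end Pool.Agent.Helper15.T8
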