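import Pool.Agent.Helper15.T6.All
import Pool.Agent.Helper15.T8.All

set_option autoImplicit false

/-!
MP_2f9829_co: for every `D ≥ 3`, almost all graphs with maximum degree at most `D` satisfy the list
edge-colouring conjecture (`n → ∞`).
-/

namespace Pool.Agent.Helper15.T8.Hand

/-- For every `D ≥ 3`, the proportion of the graphs on `n` vertices with maximum degree at most `D`
that have chromatic index and list chromatic index `D` tends to `1` as `n → ∞`. -/
theorem result : ∀ D : ℕ, 3 ≤ D → Filter.Tendsto (fun n : ℕ =>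
    (Set.ncard {G : SimpleGraph (Fin n) | (∀ v, Set.ncard (G.neighborSet v) ≤ D) ∧
      ∀ k : ℕ, (G.lineGraph.Colorable k ↔ D ≤ k) ∧
        ((∀ L : G.edgeSet → Finset ℕ, (∀ e, k ≤ (L e).card) →
          ∃ f : G.edgeSet → ℕ, (∀ e, f e ∈ L e) ∧ ∀ e e', G.lineGraph.Adj e e' → f e ≠ f e') ↔
            D ≤ k)} : ℝ) /
    (Set.ncard {G : SimpleGraph (Fin n) | ∀ v, Set.ncard (G.neighborSet v) ≤ D} : ℝ))
    Filter.atTop (nhds 1) :=
  Pool.Agent.Helper15.T8.All.all_E_MAIN8 Pool.Agent.Helper15.T6.All.all_MAIN6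

end Pool.Agent.Helper15.T8.Hand
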