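import Pool.Agent.Helper15.T8.Defs
import Pool.Agent.Helper15.T6.Stmts

set_option autoImplicit false

/-!
MP_2f9829_co, part T8: statements of the modules. Module `X` proves `ST_X`, with the statements of the modules
it uses as hypotheses. Text: /team-store/t8_blueprint.md.
-/

open Finset Filter Topology

namespace Pool.Agent.Helper15.T8

/-- BAS: sums of degrees; every graph of `GJ` has deficiency `FJ` outside `W`. -/
def ST_BAS : Prop := ∀ (n D : ℕ) (W : Finset (Fin n)) (j : ℕ) (E : Finset (Sym2 (Fin n))),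
  E ∈ GJ n D W j → 2 * j ≤ (n - W.card) * D ∧ ∑ v ∈ Wᶜ, (D - dg E v) = FJ n D W j ∧
  ∑ v, (D - dg E v) = FJ n D W j + D * W.card ∧ ∑ v, dg E v = 2 * j

/-- DCT: double counting of the pairs (graph, regular graph that contains it). -/
def ST_DCT : Prop := ∀ (n D : ℕ) (W : Finset (Fin n)) (B : Finset (Sym2 (Fin n)) → Prop) [DecidablePred B],
  W.card ≤ 1 → (∀ E E', E ⊆ E' → B E → B E') → ∀ j : ℕ,
  ∑ E ∈ GJ n D W j, cp n D E = (RG n D).card * (n * D / 2 - D * W.card).choose j ∧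
  ∑ E ∈ (GJ n D W j).filter B, cp n D E ≤
    ((RG n D).filter B).card * (n * D / 2 - D * W.card).choose j

/-- UPC: upper bound for the number of completions. -/
def ST_UPC : Prop := ∀ (n D k : ℕ) (E : Finset (Sym2 (Fin n))), E ∈ GW n D ∅ →
  ∑ v, (D - dg E v) = 2 * k → cp n D E ≤ df k

/-- LOC: lower bound for the number of completions when there are few exceptional vertices. -/
def ST_LOC : Prop := ∀ D A : ℕ, ∃ ε : ℝ, 0 < ε ∧ ∃ k₀ : ℕ, ∀ (n k : ℕ) (E : Finset (Sym2 (Fin n))),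
  E ∈ GW n D ∅ → ∑ v, (D - dg E v) = 2 * k → k₀ ≤ k → (TT n D E).card ≤ A →
  ε * (df k : ℝ) ≤ (cp n D E : ℝ)

/-- RT1: removal of an edge. -/
def ST_RT1 : Prop := ∀ (n D : ℕ) (W : Finset (Fin n)) (j : ℕ), 1 ≤ j → 2 * j ≤ (n - W.card) * D →
  2 * j * (GJ n D W j).card ≤ (FJ n D W j + 2) ^ 2 * (GJ n D W (j - 1)).card

/-- RT2: addition of an edge. -/
def ST_RT2 : Prop := ∀ (n D : ℕ) (W : Finset (Fin n)) (j : ℕ), 1 ≤ D → 1 ≤ j →
  2 * j ≤ (n - W.card) * D → D * (D + 1) ≤ FJ n D W j + 2 →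
  ((FJ n D W j + 2 : ℕ) : ℝ) / D * (((FJ n D W j + 2 : ℕ) : ℝ) / D - 1 - D) *
    ((GJ n D W (j - 1)).card : ℝ) ≤ 2 * j * ((GJ n D W j).card : ℝ)

/-- SW1: switching at a vertex of deficiency at least two. -/
def ST_SW1 : Prop := ∀ (n D : ℕ) (W : Finset (Fin n)) (j : ℕ),
  (2 * (j : ℝ) - 2 * D - D ^ 2) *
    ∑ E ∈ GJ n D W j, (((Wᶜ.filter (fun v => dg E v + 2 ≤ D)).card : ℕ) : ℝ) ≤
    D * (FJ n D W j : ℝ) ^ 2 * ((GJ n D W j).card : ℝ)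

/-- SW2: switching at an edge with two deficient ends. -/
def ST_SW2 : Prop := ∀ (n D : ℕ) (W : Finset (Fin n)) (j : ℕ),
  (2 * (j : ℝ) - 4 * D - 2 * D ^ 2) * ∑ E ∈ GJ n D W j,
    ((((univ : Finset (Fin n × Fin n)).filter (fun p => p.1 ≠ p.2 ∧ s(p.1, p.2) ∈ E ∧
      dg E p.1 < D ∧ dg E p.2 < D)).card : ℕ) : ℝ) ≤
    D ^ 2 * (FJ n D W j : ℝ) ^ 2 * ((GJ n D W j).card : ℝ)

/-- TYP (from SW1, SW2): the mean number of exceptional vertices is bounded. -/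
def ST_TYP : Prop := ∀ (D : ℕ) (C : ℝ), 1 ≤ D → ∃ K : ℝ, ∃ n₀ : ℕ, ∀ (n : ℕ) (W : Finset (Fin n)) (j : ℕ),
  n₀ ≤ n → W.card ≤ 1 → 2 * j ≤ (n - W.card) * D → (FJ n D W j : ℝ) ≤ C * Real.sqrt n →
  ∑ E ∈ GJ n D W j, (((TT n D E).card : ℕ) : ℝ) ≤ K * ((GJ n D W j).card : ℝ)

/-- TAIL (from RT1, RT2, BAS): the deficiency is large and at most of order `√n` for most graphs. -/
def ST_TAIL : Prop := ∀ (D : ℕ) (η : ℝ) (F₀ : ℕ), 1 ≤ D → 0 < η → ∃ C : ℝ, ∃ n₀ : ℕ,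
  ∀ (n : ℕ) (W : Finset (Fin n)), n₀ ≤ n → W.card ≤ 1 →
  (((GW n D W).filter (fun E => FJ n D W E.card ≤ F₀ ∨
    C * Real.sqrt n < (FJ n D W E.card : ℝ))).card : ℝ) ≤ η * ((GW n D W).card : ℝ)

/-- ASM (from BAS, DCT, UPC, LOC, TYP, TAIL): transfer from regular graphs. -/
def ST_ASM : Prop := ∀ (D : ℕ) (η : ℝ), 1 ≤ D → 0 < η → ∃ ε : ℝ, 0 < ε ∧ ∃ n₀ : ℕ,
  ∀ (n : ℕ) (W : Finset (Fin n)) (B : Finset (Sym2 (Fin n)) → Prop) [DecidablePred B],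
  n₀ ≤ n → Even n → W.card ≤ 1 → (∀ E E', E ⊆ E' → B E → B E') → 0 < (RG n D).card →
  (((RG n D).filter B).card : ℝ) ≤ ε * ((RG n D).card : ℝ) →
  (((GW n D W).filter B).card : ℝ) ≤ η * ((GW n D W).card : ℝ)

/-- EMB: an isolated vertex is added. -/
def ST_EMB : Prop := ∀ (n D : ℕ) (B : Finset (Sym2 (Fin n)) → Prop)
  (B' : Finset (Sym2 (Fin (n + 1))) → Prop) [DecidablePred B] [DecidablePred B'],
  (∀ E, B E → B' (E.image (Sym2.map Fin.castSucc))) →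
  (GW n D ∅).card = (GW (n + 1) D {Fin.last n}).card ∧
  ((GW n D ∅).filter B).card ≤ ((GW (n + 1) D {Fin.last n}).filter B').card

/-- CNV: sets of edges and simple graphs. -/
def ST_CNV : Prop := ∀ (n : ℕ) (P : (Fin n → ℕ) → Prop) (Q : SimpleGraph (Fin n) → Prop),
  Set.ncard {G : SimpleGraph (Fin n) | P (fun v => Set.ncard (G.neighborSet v)) ∧ Q G} =
  Set.ncard {E : Finset (Sym2 (Fin n)) | (∀ e ∈ E, ¬ e.IsDiag) ∧ P (dg E) ∧
    Q (SimpleGraph.fromEdgeSet (E : Set (Sym2 (Fin n))))}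

/-- MON: choosability passes to subgraphs, and to graphs embedded into larger ones. -/
def ST_MON : Prop := ∀ (V V' : Type) (d : ℕ) (G : SimpleGraph V) (G' : SimpleGraph V') (ι : V → V'),
  Function.Injective ι → (∀ u v, G.Adj u v → G'.Adj (ι u) (ι v)) → T6.ChD d G' → T6.ChD d G

/-- WRP: the conjecture for one graph with a vertex of degree `D`. -/
def ST_WRP : Prop := ∀ (V : Type) [Fintype V] (D : ℕ) (G : SimpleGraph V) (v : V),
  Set.ncard (G.neighborSet v) = D → T6.ChD D G → ∀ k : ℕ, (G.lineGraph.Colorable k ↔ D ≤ k) ∧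
    ((∀ L : G.edgeSet → Finset ℕ, (∀ e, k ≤ (L e).card) →
      ∃ f : G.edgeSet → ℕ, (∀ e, f e ∈ L e) ∧ ∀ e e', G.lineGraph.Adj e e' → f e ≠ f e') ↔ D ≤ k)

/-- RGB (from CNV): bad regular graphs are rare and regular graphs exist. -/
def ST_RGB : Prop := ∀ (D : ℕ), 3 ≤ D → T6.ST_MAIN6 → ∀ ε : ℝ, 0 < ε → ∀ᶠ N : ℕ in atTop,
  0 < (RG (2 * N) D).card ∧
  (Set.ncard {E : Finset (Sym2 (Fin (2 * N))) | E ∈ RG (2 * N) D ∧
    ¬ T6.ChD D (SimpleGraph.fromEdgeSet (E : Set (Sym2 (Fin (2 * N)))))} : ℝ) ≤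
    ε * ((RG (2 * N) D).card : ℝ)

/-- MAIN8 (from MAIN6 of T6 and WRP, RGB, BAS, ASM, EMB, CNV, MON, TAIL): almost all graphs of maximum degree at most `D`
satisfy the list edge colouring conjecture. -/
def ST_MAIN8 : Prop := T6.ST_MAIN6 → ∀ D : ℕ, 3 ≤ D → Tendsto (fun n : ℕ =>
  (Set.ncard {G : SimpleGraph (Fin n) | (∀ v, Set.ncard (G.neighborSet v) ≤ D) ∧
    ∀ k : ℕ, (G.lineGraph.Colorable k ↔ D ≤ k) ∧
      ((∀ L : G.edgeSet → Finset ℕ, (∀ e, k ≤ (L e).card) →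
        ∃ f : G.edgeSet → ℕ, (∀ e, f e ∈ L e) ∧ ∀ e e', G.lineGraph.Adj e e' → f e ≠ f e') ↔
          D ≤ k)} : ℝ) /
  (Set.ncard {G : SimpleGraph (Fin n) | ∀ v, Set.ncard (G.neighborSet v) ≤ D} : ℝ)) atTop (𝓝 1)

end Pool.Agent.Helper15.T8
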